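import Pool.Agent.W2helper23.GP.Stm

/-!
# A gap principle for congruences of elliptic curves: statements of the pieces, part 2 (helper23)

`x = -j / 1728`, the triple of forms is `(x, 1, x + 1)`, that is `j`, `1728`, `j - 1728`; for
`IsP ∅ x P` the ideal `P 0` is the numerator of `x`, `P 1` the denominator, `P 2` the numerator of
`x + 1` (all three are pairwise coprime, `IsP.cop`).
-/

set_option autoImplicit false

namespace Pool.Agent.W2helper23.GP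

open WeierstrassCurve Pool.Agent.Y673.Loc Pool.Agent.Y673.Loc.ZV
open NumberField IsDedekindDomain Finset
open Pool.Agent.Y673.FM Pool.Agent.H691R3 Pool.Agent.W223.AK Pool.Agent.W52.AK
open Pool.Agent.Y733.UD Pool.Agent.Y733.LS Pool.Agent.Y733.FZ

section
variable {K : Type} [Field K] [NumberField K]

/-- the exceptional places: those above the primes at most `N₁`, and those above `p` of large
ramification index -/
def SS (K : Type) [Field K] [NumberField K] (N₁ p : ℕ) : Set (Pr K) :=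
  {v | (adv K v).v ((N₁.factorial : ℕ) : K) ≠ 0} ∪ {v | p.Prime ∧ (p : ℤ) ≤ 200 * (adv K v).v (p : K)}

/-- the local relations between the invariants of two congruent curves outside `S` -/
structure LV (S : Set (Pr K)) (M : ℕ) (j₀ j : K) : Prop where
  a : ∀ v, v ∉ S → (adv K v).G 0 j₀ → (adv K v).v j < 0 → (M : ℤ) ≤ -(adv K v).v j
  b : ∀ v, v ∉ S → (adv K v).G 0 j → (adv K v).v j₀ < 0 → (M : ℤ) ≤ -(adv K v).v j₀
  c3 : ∀ v, v ∉ S → (adv K v).G 0 j₀ → (adv K v).G 0 j → j₀ ≠ 0 → j ≠ 0 →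
    (3 ∣ (adv K v).v j ↔ 3 ∣ (adv K v).v j₀)
  c2 : ∀ v, v ∉ S → (adv K v).G 0 j₀ → (adv K v).G 0 j → j₀ ≠ 1728 → j ≠ 1728 →
    (2 ∣ (adv K v).v (j - 1728) ↔ 2 ∣ (adv K v).v (j₀ - 1728))

/-- the same in terms of the ideals of `x₀ = -j₀ / 1728` and `x = -j / 1728` -/
structure LR (S : Set (Pr K)) (M : ℕ) (P₀ P : Fin 3 → Idl K) : Prop where
  a : ∀ v, v ∉ S → P₀ 1 v = 0 → P 1 v = 0 ∨ M ≤ P 1 v
  b : ∀ v, v ∉ S → P 1 v = 0 → P₀ 1 v = 0 ∨ M ≤ P₀ 1 v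
  c : ∀ v, v ∉ S → P₀ 1 v = 0 → P 1 v = 0 → (3 ∣ P 0 v ↔ 3 ∣ P₀ 0 v) ∧ (2 ∣ P 2 v ↔ 2 ∣ P₀ 2 v)

/-- the number of places in `S` is at most `W` -/
def Few (S : Set (Pr K)) (W : ℝ) : Prop := ∀ T : Finset (Pr K), (∀ v ∈ T, v ∈ S) → (T.card : ℝ) ≤ W

open scoped Classical in
/-- the part of an ideal at the places of `S` and at the places with exponent at least two -/
noncomputable def bl (S : Set (Pr K)) (a : Idl K) : ℝ :=
  ∑ v ∈ a.support, if v ∈ S ∨ 2 ≤ a v then (a v : ℝ) * Real.log (Nv v) else 0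

/-- typical points -/
structure Typ (S : Set (Pr K)) (δ X : ℝ) (x₀ : K) (P₀ : Fin 3 → Idl K) : Prop where
  pt : Pt x₀
  isP : IsP ∅ x₀ P₀
  h : ht x₀ ≤ X
  l : ∀ l, (1 - δ) * X ≤ len (P₀ l)
  b : ∀ l, bl S (P₀ l) ≤ δ * X

end

/-- L4 (assembly of the local results; may assume L1, L2, L3).  Compare `HE_all`, `HE_prime`,
`HE_tame`, `large_factor` in `Y673/CB/App.lean`.
PROOF.  Let `N₁ = M₀ + 200`, `n₀` large: by `large_factor` `n` has a prime factor `p ≥ N₁`, or a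
factor `q ^ (k + 1) ≥ 720 M₀ + 3` with `q < N₁` prime.  First case: use `SS K N₁ p`; outside it
`v` is not above `6` and `200 v(p) < p`.  (a), (b): `loc` (both ways; `SameF` is symmetric), the order
of the pole is divisible by `p ≥ M₀`.  (c3), (c2): L1 with `r = 4` and `r = 6` both ways (`Cong` is
symmetric: take an inverse of `F` on the torsion):  `3 ∣ v(D) ↔ 3 ∣ v(D₀)`, `2 ∣ v(D) ↔ 2 ∣ v(D₀)`,
and `v(j) = 3 v(A) - v(D)` as `j = 6912 A³ / D`, `v(j - 1728) = 2 v(B) - v(D)` as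
`j - 1728 = -46656 B² / D`.  Second case: use `SS K N₁ 0`, outside it `v` is not above `6 q`, with L3
((a), (b); the order of the pole is at least `q ^ (k + 1) / 720`) and L2 (c3, c2). -/
def L4 : Prop := ∀ M₀ : ℕ, ∃ n₀ N₁ : ℕ, 3 ≤ N₁ ∧
  ∀ (K : Type) [Field K] [NumberField K] (A B A₀ B₀ : K),
    4 * A ^ 3 + 27 * B ^ 2 ≠ 0 → 4 * A₀ ^ 3 + 27 * B₀ ^ 2 ≠ 0 → ∀ n : ℕ, n₀ ≤ n →
    ∀ F : EP A B → EP A₀ B₀, Cong A B A₀ B₀ n F →
    ∃ p : ℕ, LV (SS K N₁ p) M₀ (jv A₀ B₀) (jv A B)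

/-- L5 (translation).  `1728` is a unit outside `S`. -/
def L5 : Prop := ∀ (K : Type) [Field K] [NumberField K] (S : Set (Pr K)) (M : ℕ) (j₀ j : K)
    (P₀ P : Fin 3 → Idl K), (∀ v, v ∉ S → (adv K v).v 2 = 0 ∧ (adv K v).v 3 = 0) →
    Pt (-j₀ / 1728) → Pt (-j / 1728) → IsP ∅ (-j₀ / 1728) P₀ → IsP ∅ (-j / 1728) P →
    LV S M j₀ j → LR S M P₀ P

/-- FEW.  PROOF.  First set: `sum_mult_le` of `Y733/FZ/Set.lean` (as `small_six`); second set: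
`∑ v ∈ T, v(p) log Nv ≤ n log p` (`sum_mult_le`, `fv_adv`) and `v(p) ≥ p / 200`, `log Nv ≥ log 2`, so
`#T ≤ 200 n log p / (p log 2) ≤ 300 n`.  Also `v(p) ≤ n` (the same inequality for one `v`, as
`Nv v` is a power of `p`; or the sum of the ramification indices) gives the second claim. -/
def FEW : Prop := ∀ N₁ : ℕ, ∃ C : ℝ, 0 ≤ C ∧ ∀ (K : Type) [Field K] [NumberField K] (p : ℕ),
    Few (SS K N₁ p) (Module.finrank ℚ K * C) ∧
    (200 * Module.finrank ℚ K < p → SS K N₁ p ⊆ SS K N₁ 0)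

/-- BADC: ideals with a large bad part.
PROOF.  `rankin` (as `gw_sum`, `den_count` in `Y733/FZ/Wt.lean`) with the weight of `(v, k)`: `0` if
`k = 0`, `exp (-(1 + ε) log Nv)` if `k = 1`, `v ∉ S`, and `exp (-(1/2 + ε) k log Nv)` otherwise.  The
product over an ideal is `exp (-(1 + ε) (len - bl) - (1/2 + ε) bl) ≥ exp (-(1 + ε) X + c / 2)`; the sum of
the weights is at most `n A + A W` (for `v ∉ S`, `k ≥ 2`:
`exp (-(1/2 + ε) k log Nv) ≤ exp (-(1 + ε) log Nv) ρ ^ k`...; for `v ∈ S`: a geometric series at each place). -/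
def BADC : Prop := ∀ ε : ℝ, 0 < ε → ε ≤ 1 → ∃ A : ℝ, 0 ≤ A ∧
  ∀ (K : Type) [Field K] [NumberField K] (S : Set (Pr K)) (W X c : ℝ), Few S W → 0 ≤ W →
    ∀ Q : Finset (Idl K), (∀ a ∈ Q, len a ≤ X ∧ c ≤ bl S a) →
      (Q.card : ℝ) ≤ Real.exp (Module.finrank ℚ K * A + A * W + (1 + ε) * X - c / 2)

open scoped Classical in
/-- DIVC: ideals which are squarefree divisors of `R` up to a small ideal.
PROOF.  `rankin` with the weight of `(v, k)`: `0` if `k = 0`; `1` if `k = 1` and `R v ≠ 0`;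
`exp (-(1 + ε) k log Nv)` otherwise.  Sum of the weights: number of `v` in the support of `R`, which is at most
`ε len R + n A` (`1 ≤ ε log Nv + exp (2 / ε) Nv ^ (-2)`, see `small_poles`), plus `n A`. -/
def DIVC : Prop := ∀ ε : ℝ, 0 < ε → ε ≤ 1 → ∃ A : ℝ, 0 ≤ A ∧
  ∀ (K : Type) [Field K] [NumberField K] (R : Idl K) (c : ℝ) (Q : Finset (Idl K)),
    (∀ a ∈ Q, ∑ v ∈ a.support, (if a v = 1 ∧ R v ≠ 0 then 0 else (a v : ℝ) * Real.log (Nv v)) ≤ c) →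
      (Q.card : ℝ) ≤ Real.exp (Module.finrank ℚ K * A + (1 + ε) * c + ε * len R)

/-- STR: the structure of `y = -(x + 1) / (x₀ + 1)`; `n` is the degree.
PROOF.  `v(x + 1) = P 2 v - P 1 v`, and the same for `x₀`, so
`v(y) = (P 2 v - P 1 v) - (P₀ 2 v - P₀ 1 v) = R 0 v - R 1 v`, `R 0 v R 1 v = 0`.
At a good place (`v ∉ S`, all `P₀ l v ≤ 1`; at most one `P₀ l v` is not `0`):
* `P₀ 1 v = P₀ 2 v = 0`: `P 1 v = 0` and `P 2 v` even (LR.c), so `R 0 v = P 2 v`, `R 1 v = 0`; or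
  `P 1 v ≥ M`, `P 2 v = 0`, `R 1 v = P 1 v`, `R 0 v = 0`.
* `P₀ 2 v = 1`: `P 1 v = 0`, `P 2 v` odd, `R 0 v = P 2 v - 1`, `R 1 v = 0`; or `P 1 v ≥ M`,
  `R 1 v = P 1 v + 1`.
* `P₀ 1 v = 1`: `P 1 v ≥ 1` (LR.b, `M ≥ 2`), `P 2 v = 0`, `v(y) = 1 - P 1 v ≤ 0`, `R 0 v = 0`.
* If `P₀ 0 v = 1`: `P 1 v ≥ M`, or `P 1 v = 0`, then `P 0 v` is not divisible by `3` (LR.c), so
  `v(x) > 0`, `v(x₀) > 0`, `v(y + 1) > 0`, `R 2 v ≠ 0`.
Height: `ht y = len (R 1) + ∑_∞ log max(|y|, 1)`.  For all `v`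
`R 1 v ≤ P 1 v - P₀ 1 v + P 1 v / M + β₁ v + β₂ v`, `β_i v = P₀ i v` if `v ∈ S` or `P₀ i v ≥ 2`, `0`
otherwise (cases as above), so `len (R 1) ≤ (1 + 1 / M) len (P 1) - len (P₀ 1) + bl S (P₀ 1) + bl S (P₀ 2)`.
`∑_∞ log max(|x + 1|, 1) = ht (x + 1) - len (P 1) ≤ ht x + n log 2 - len (P 1)` and
`∑_∞ log max(1 / |x₀ + 1|, 1) = ht (1 / (x₀ + 1)) - len (P₀ 2) ≤ ht x₀ + n log 2 - len (P₀ 2)`. -/
def STR : Prop := ∀ (K : Type) [Field K] [NumberField K] (S : Set (Pr K)) (M : ℕ) (x₀ x : K)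
    (P₀ P R : Fin 3 → Idl K), 3 ≤ M → Pt x₀ → Pt x → x ≠ x₀ → IsP ∅ x₀ P₀ → IsP ∅ x P →
    LR S M P₀ P → IsP ∅ (-((x + 1) / (x₀ + 1))) R →
    (∀ v, v ∉ S → (∀ l, P₀ l v ≤ 1) → (R 0 v = 0 ∨ 2 ≤ R 0 v) ∧
      (R 1 v = 0 ∨ M ≤ R 1 v ∨ P₀ 1 v ≠ 0) ∧ (P₀ 0 v = 1 → R 2 v ≠ 0 ∨ M ≤ P 1 v)) ∧
    ht (-((x + 1) / (x₀ + 1))) ≤ ht x + len (P 1) / M + (ht x₀ - len (P₀ 2)) - len (P₀ 1) +
      bl S (P₀ 1) + bl S (P₀ 2) + 2 * (Module.finrank ℚ K * Real.log 2)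

/-- ATYP: few points are not typical (may assume BADC).
PROOF.  `P l` for the bad index `l`, and `P l'` for another index `l'`: the number of the pairs is at
most `exp (n A + (1 + ε) (1 - δ) X + (1 + ε) X)`, respectively by BADC (with `c = δ X`)
`exp (n A + A W + (1 + ε) X - δ X / 2 + (1 + ε) X)`, and `class_gen`. -/
def ATYP : Prop := ∀ δ ε : ℝ, 0 < δ → δ ≤ 1 → 0 < ε → ε ≤ 1 → ∃ A : ℝ, 0 ≤ A ∧
  ∀ (K : Type) [Field K] [NumberField K] (S : Set (Pr K)) (W X : ℝ), Few S W → 0 ≤ W → 0 ≤ X →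
    ∀ F : Finset K, (∀ x₀ ∈ F, Pt x₀ ∧ ht x₀ ≤ X ∧ ∀ P₀, IsP ∅ x₀ P₀ → ¬ Typ S δ X x₀ P₀) →
      (F.card : ℝ) ≤ Real.exp (Module.finrank ℚ K * A + A * W + (2 - δ / 2 + ε) * X)

/-- TYPC: few typical points have a partner (may assume STR, DIVC); helper23 proves this -/
def TYPC : Prop := ∀ κ : ℝ, 1 ≤ κ → κ < 3 → ∃ (M₀ : ℕ) (δ η A : ℝ), 3 ≤ M₀ ∧ 0 < δ ∧ δ ≤ 1 / 4 ∧
  0 < η ∧ 0 ≤ A ∧
  ∀ (K : Type) [Field K] [NumberField K] (S : Set (Pr K)) (W X : ℝ), Few S W → 0 ≤ W → 0 ≤ X →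
    ∀ F : Finset K, (∀ x₀ ∈ F, ∃ P₀, Typ S δ X x₀ P₀ ∧ ∃ x P, Pt x ∧ x ≠ x₀ ∧ ht x ≤ κ * X ∧
      IsP ∅ x P ∧ LR S M₀ P₀ P) →
      (F.card : ℝ) ≤ Real.exp (Module.finrank ℚ K * A + A * W + (2 - η) * X)

end Pool.Agent.W2helper23.GP
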