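import Mathlib
import Pool.Agent.Y673.FM.LocG
import Pool.Agent.Y673.FM.Tame5
import Pool.Agent.Y733.FZ.Main

/-!
# A gap principle for congruences of elliptic curves: statements of the pieces (helper23)

Problem MP_4a0cc8_nt (hard).  Target: for almost all `j₀ ∈ K` (all number fields `K`, with absolute
constants), every curve `E` over `K` congruent modulo some `n ≥ n₀` to a curve `E₀` of invariant `j₀`
and with `H(j(E)) ≤ H(j₀) ^ (3 - ε)` has `j(E) = j₀`.
-/

set_option autoImplicit false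

namespace Pool.Agent.W2helper23.GP

open WeierstrassCurve Pool.Agent.H901R3.MS Pool.Agent.Y673.Loc Pool.Agent.Y673.Loc.ZV
open Pool.Agent.W275.FM Pool.Agent.W275.FMK NumberField IsDedekindDomain
open Pool.Agent.Y673.FM Pool.Agent.H691R3 Pool.Agent.W223.AK

section Local

/-- Two scaled curves with good reduction at the place `w` of `L` and an isomorphism of their
`p`-torsion which commutes with the Galois group of `L / K` (compare the hypotheses of
`Pool.Agent.Y673.FM.case1`, `case2`, which are the case `u₀ = 1`, `v(p) ≤ 1`).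
`e = Nat.card inertia`, `d`, `d₀` are the valuations (at the place of `K` below `w`) of the
discriminants `D = 4A³ + 27B² = u ^ 12`, `D₀ = u₀ ^ 12`. -/
structure Two {K L : Type} [Field K] [NumberField K] [Field L] [NumberField L] [Algebra K L]
    [DecidableEq L] (w : HeightOneSpectrum (𝓞 L)) (p : ℕ) (A B A₀ B₀ : K) (a b u a₀ b₀ u₀ : L)
    (T : Finset (Pt a b)) (T₀ : Finset (Pt a₀ b₀)) (f : Pt a b → Pt a₀ b₀) (d d₀ : ℤ) : Prop where
  cx : Cx w p A B a b u T
  cx₀ : Cx w p A₀ B₀ a₀ b₀ u₀ T₀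
  hf : Iso p cx.s cx₀.s f
  hp : p.Prime
  h200 : 200 ≤ p
  hwp : 200 * (adv L w).v (p : L) < (Nat.card (w.asIdeal.inertia (L ≃ₐ[K] L)) : ℤ) * p
  hd : 12 * (adv L w).v u = (Nat.card (w.asIdeal.inertia (L ≃ₐ[K] L)) : ℤ) * d
  hd₀ : 12 * (adv L w).v u₀ = (Nat.card (w.asIdeal.inertia (L ≃ₐ[K] L)) : ℤ) * d₀
  hu : ∃ D : K, u ^ 12 = algebraMap K L D
  hu₀ : ∃ D : K, u₀ ^ 12 = algebraMap K L D

/-- L1A (generalises `case1` of `Y673/FM/Good2.lean`).  `E₀` has a `p`-torsion point `Q₀` outside the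
kernel of reduction.
PROOF.  `I` the inertia group, `e = #I`, `f₁ = v(p)`, so `W.v p = e f₁`, `200 f₁ < p`.
`χ₀(σ) = rs W (σ u₀ / u₀)` is a homomorphism of `I` to the units of the residue ring (`chi_mul`), and
`χ₀ ^ r = 1`: `u₀ ^ r` has valuation `r e d₀ / 12`, a multiple of `e`, which is the valuation of an
element of `K` (a power of a uniformizer of `K` at the place below, `uniformizer`, `adv_w`), so by
`chi_eq` `χ₀(σ) ^ r = chi W (u₀ ^ r) σ = 1`.  The image of `χ₀` is a finite subgroup of the units of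
a domain, so cyclic, so its order `r'` divides `r`.  Let `J` be the kernel, `#J = e / r'`.  For
`σ ∈ J` one has `σ u₀ = u₀` (a twelfth root of unity with residue class one, `12` is a unit; see
`hufix` in the proof of `case2`).  Now repeat the proof of `case1` with `J` instead of `I` (only
`inert_kn` uses `u₀ = 1`; it only needs `σ u₀ = u₀`; `prod_fix` holds for a subgroup of the inertia
group since `fix_dvd` does):  `#J ∣ #C (2 w(u)) - 2 S`, `0 ≤ (p - 1) S ≤ W.v p`, so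
`#J ∣ 12 S` after multiplication by `6` (`12 w(u) = e d = r' #J d`), and `12 S < #J` because
`12 * 12 f₁ < p - 1`; hence `S = 0`, and as in `case1`  `6 ∣ #C r' d`, `4 ∣ #C r' d`, `#C` prime to
`6`, so `12 ∣ r' d ∣ r d`. -/
def L1A : Prop := ∀ (K L : Type) [Field K] [NumberField K] [Field L] [NumberField L] [Algebra K L]
    [DecidableEq L] [IsGalois K L] (w : HeightOneSpectrum (𝓞 L)) (p : ℕ) (A B A₀ B₀ : K)
    (a b u a₀ b₀ u₀ : L) (T : Finset (Pt a b)) (T₀ : Finset (Pt a₀ b₀)) (f : Pt a b → Pt a₀ b₀)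
    (d d₀ r : ℤ), Two w p A B A₀ B₀ a b u a₀ b₀ u₀ T T₀ f d d₀ → r ∣ 12 → 12 ∣ r * d₀ →
    (∃ Q₀ ∈ T₀, ¬ Kn (adv L w) Q₀) → 12 ∣ r * d

/-- L1L (a stable line in both kernels of reduction).
PROOF.  `y k = (tt (k • R) / u) / (tt (k • f R) / u₀)` for `k = 1, …, p - 1` (all the points
`k • R`, `k • f R = f (k • R)` are nonzero and in the kernels, so the `tt` are nonzero,
`lam_E`).  By `st_tt'` and equivariance an inertia automorphism permutes the `y k` (it maps `k` to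
`k * k(σ)` modulo `p`).  By `tt_lin` (or `Kn.mul`) `tt (k • R) = k tt R + (higher)`, so
`y k = y 1 (1 + m_k)`, `W.G 1 m_k`.  `Y = ∑ k ∈ [1, p - 1], y k` is fixed by `I` and has the
valuation of `y 1` if `p - 1` is a unit at `w` (it is: `W.G 1 (p : L)` by `wp_of_kn`).  So by
`fix_dvd`  `e ∣ W.v (y 1) = (lam R - lam (f R)) - (W.v u - W.v u₀)`.  Multiply by `12`:
`12 e ∣ 12 (lam R - lam (f R)) - e (d - d₀)`; `0 ≤ lam ≤ W.v p / (p - 1)` (the `p - 1` nonzero
multiples have the same `lam`, sum over `T` is `W.v p`; or `GR.le`), so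
`|12 (lam R - lam (f R))| < e`; so `lam R = lam (f R)` and `12 ∣ d - d₀`. -/
def L1L : Prop := ∀ (K L : Type) [Field K] [NumberField K] [Field L] [NumberField L] [Algebra K L]
    [DecidableEq L] [IsGalois K L] (w : HeightOneSpectrum (𝓞 L)) (p : ℕ) (A B A₀ B₀ : K)
    (a b u a₀ b₀ u₀ : L) (T : Finset (Pt a b)) (T₀ : Finset (Pt a₀ b₀)) (f : Pt a b → Pt a₀ b₀)
    (d d₀ : ℤ), Two w p A B A₀ B₀ a b u a₀ b₀ u₀ T T₀ f d d₀ →
    ∀ (s : Sc A B a b u), ∀ R ∈ T, Kn (adv L w) R → Kn (adv L w) (f R) →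
    (∀ σ ∈ w.asIdeal.inertia (L ≃ₐ[K] L), ∃ k : ℕ, st s σ R = k • R) → 12 ∣ d - d₀

/-- L1B (generalises `case2` of `Y673/FM/Good3.lean`).  All `p`-torsion of both curves is in the
kernel of reduction and there is no stable line.
PROOF.  (1) `lam` is constant on `T`: `{R | R = 0 ∨ m < lam R}`, `m` the minimum, is a proper
subgroup (`lam_sub` or the group law in the kernel) stable under `I` (`st_lam`); if it was not zero
it would be a line, since two independent points generate the `p`-torsion (`basis`), so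
`st s σ R = k • R` for `R` in it, a contradiction.  So `lam = W.v p / (p² - 1)` on `T`.  By `Iso` also
`E₀` has no stable line, so `lam` is the same constant `m` on `T₀`.
(2) As in `case2` (`halt`): with `z = u / u₀`, for every `σ ∈ I` one has `ρ(σ) = rs W (u σu₀ / (u₀ σu)) = 1`
or `chi W (tt P₀) σ ^ (12 (p - 1)) = 1`, by `gam_eq`, `gam_dep`, `gam_quad` for both curves and
`quad_alg` with `α = rs W (u₀ / σ u₀) * chi W (tt P₀) σ`, `ρ ^ 12 = 1`
(`α ^ (12 (p - 1)) = chi ^ (12 (p - 1))` as `(u₀ / σ u₀) ^ 12 = 1`).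
(3) If `ρ(σ) = 1` for all `σ ∈ I`, then `σ z = z` (`hufix` in `case2`: `z ^ 12 ∈ K`), so
`e ∣ W.v z` (`fix_dvd`), `12 ∣ d - d₀`.
(4) Otherwise as in `case2` (`hn2`) `chi W (tt P₀) τ ^ (12 (p - 1)) = 1` for all `τ ∈ I`, and the
orbit `O` of `P₀` under `I` has at most `12 (p - 1)` elements (`roots_le`; `R ↦ rs W (tt R / tt P₀)`
is injective on `T₀`).  By `prod_fix` for `Q ↦ tt Q / u₀` on `O`:  `e ∣ #O (m - W.v u₀)`, so
`e ∣ 12 #O m`, and `(p² - 1) m = e f₁`, so `(p² - 1) ∣ 12 #O f₁`, `p² - 1 ≤ 12 #O f₁ ≤ 144 (p - 1) f₁`,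
`p + 1 ≤ 144 f₁`, against `200 f₁ < p`. -/
def L1B : Prop := ∀ (K L : Type) [Field K] [NumberField K] [Field L] [NumberField L] [Algebra K L]
    [DecidableEq L] [IsGalois K L] (w : HeightOneSpectrum (𝓞 L)) (p : ℕ) (A B A₀ B₀ : K)
    (a b u a₀ b₀ u₀ : L) (T : Finset (Pt a b)) (T₀ : Finset (Pt a₀ b₀)) (f : Pt a b → Pt a₀ b₀)
    (d d₀ : ℤ), Two w p A B A₀ B₀ a b u a₀ b₀ u₀ T T₀ f d d₀ →
    ∀ (s : Sc A B a b u), (∀ Q ∈ T, Kn (adv L w) Q) → (∀ Q ∈ T₀, Kn (adv L w) Q) →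
    (∀ R ∈ T, ∃ σ ∈ w.asIdeal.inertia (L ≃ₐ[K] L), ∀ k : ℕ, st s σ R ≠ k • R) → 12 ∣ d - d₀

open scoped Classical in
/-- L1 (from L1A, L1L, L1B; generalises `locG` of `Y673/FM/LocG.lean`).  If `E[p] ≅ E₀[p]`,
`p ≥ 200`, `v` is a place not above `6` with `200 v(p) < p`, and both curves have potentially good
reduction at `v`, then for `r ∣ 12`: `12 ∣ r v(D₀)` implies `12 ∣ r v(D)`.
PROOF.  Copy the proof of `locG` with both curves scaled by twelfth roots `u`, `u₀` of their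
discriminants (`gr_of` for both) to get `Two`.  If some `Q₀ ∈ T₀` is not in the kernel: L1A.
Otherwise `W.G 1 p` (`wp_of_kn`), so `∑_T lam = W.v p > 0` and some `R ∈ T` is in the kernel.  If some point of `T` is
not in the kernel, the points of the kernel form a line (two independent ones would generate the
`p`-torsion, `basis`, `KN`), it is stable (`st_kn`): L1L.  If all are in the kernel: L1L if there is
a stable line, L1B otherwise.  (`12 ∣ d - d₀` and `12 ∣ r d₀` give `12 ∣ r d`.) -/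
def L1 : Prop := ∀ (K : Type) [Field K] [NumberField K] (A B A₀ B₀ : K),
    4 * A ^ 3 + 27 * B ^ 2 ≠ 0 → 4 * A₀ ^ 3 + 27 * B₀ ^ 2 ≠ 0 → ∀ p : ℕ, p.Prime → 200 ≤ p →
    ∀ F : EP A B → EP A₀ B₀, Cong A B A₀ B₀ p F → ∀ v : HeightOneSpectrum (𝓞 K),
    (adv K v).v 2 = 0 → (adv K v).v 3 = 0 → 200 * (adv K v).v (p : K) < p →
    (adv K v).G 0 (jv A₀ B₀) → (adv K v).G 0 (jv A B) → ∀ r : ℤ, r ∣ 12 →
    12 ∣ r * (adv K v).v (4 * A₀ ^ 3 + 27 * B₀ ^ 2) → 12 ∣ r * (adv K v).v (4 * A ^ 3 + 27 * B ^ 2)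

/-- L2 (generalises `tameG`, where `r = 1` and the model of `E₀` is good).
PROOF.  As in `tame_setup` and `tameG`, but `E₀` is scaled by a twelfth root `u₀` of `D₀`, and `J` is
the subgroup of the inertia group `I` of the `σ` with `σ u₀ = u₀`.  `J` acts trivially on the
`n`-torsion of the scaled curve `E₀` (it reduces injectively: `tor_eq`), so of `E`.  As in `tameG`
`#J ∣ 2 w(u)`, `#J ∣ 3 w(u)`, so `#J ∣ w(u)`, where `12 w(u) = #I v(D)`; and `#I = r' #J` with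
`r' ∣ r` (see L1A: the image of `σ ↦ rs (σ u₀ / u₀)` is cyclic of exponent dividing `r`). So
`12 ∣ r' v(D)`. -/
def L2 : Prop := ∀ (K : Type) [Field K] [NumberField K] (A B A₀ B₀ : K),
    4 * A ^ 3 + 27 * B ^ 2 ≠ 0 → 4 * A₀ ^ 3 + 27 * B₀ ^ 2 ≠ 0 → ∀ n : ℕ, 3 ≤ n →
    SameF A B A₀ B₀ n → ∀ v : HeightOneSpectrum (𝓞 K),
    (adv K v).v 2 = 0 → (adv K v).v 3 = 0 → (adv K v).v (n : K) = 0 →
    (adv K v).G 0 (jv A₀ B₀) → (adv K v).G 0 (jv A B) → ∀ r : ℤ, r ∣ 12 →
    12 ∣ r * (adv K v).v (4 * A₀ ^ 3 + 27 * B₀ ^ 2) → 12 ∣ r * (adv K v).v (4 * A ^ 3 + 27 * B ^ 2)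

/-- L3 (generalises `tameM`, where the model of `E₀` is good and the factor is `60`).
PROOF.  As for L2 with `J`, the stabiliser in the inertia group `I` of a twelfth root `u₀` of `D₀`;
`#I = r' #J` with `r' ≤ 12` (the orbit of `u₀` consists of roots of `X ^ 12 - D₀`), in fact
`r' ∣ 12`.  The proof of `tameM` with `J` gives `q ^ (k + 1) ∣ 60 r' v(j)`, and `r' ∣ 12`. -/
def L3 : Prop := ∀ (K : Type) [Field K] [NumberField K] (A B A₀ B₀ : K),
    4 * A ^ 3 + 27 * B ^ 2 ≠ 0 → 4 * A₀ ^ 3 + 27 * B₀ ^ 2 ≠ 0 → ∀ q k : ℕ, q.Prime →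
    SameF A B A₀ B₀ (q ^ (k + 1)) → ∀ v : HeightOneSpectrum (𝓞 K),
    (adv K v).v 2 = 0 → (adv K v).v 3 = 0 → (adv K v).v (q : K) = 0 →
    (adv K v).G 0 (jv A₀ B₀) → (adv K v).v (jv A B) < 0 →
    ((q ^ (k + 1) : ℕ) : ℤ) ∣ 720 * (adv K v).v (jv A B)

open scoped Classical in
/-- L6 (twists).  Quadratic twists which are congruent modulo `p` are isomorphic, if `j₀` has a simple
pole at `v`.
PROOF.  `A B A₀ B₀ ≠ 0`, `A = c² A₀`, `B = c³ B₀` with `c = B A₀ / (A B₀)`; let `s² = c` in the algebraic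
closure, `χ(σ) = σ s / s = ±1`, `θ : E₀ → E`, `(x, y) ↦ (s² x, s³ y)`.  `f = F ∘ θ` on
`V = E₀[p]` (`p²` elements, `tor_EP`) is additive, bijective and `f (σ P) = χ(σ) σ (f P)`.  We show that `χ = 1`
(then `s ∈ K`, `t = s`).  (1) There is `τ` in the Galois group of the algebraic closure with `χ(τ) = 1`
which acts on `V` with `τ ^ p = 1` on `V`, not trivially: as in the proof of
`Pool.Agent.Y673.FM.loc` (steps up to `hτ1`, applied to `E₀` which has a simple pole there, with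
`L` a finite Galois extension of `K` which contains the coordinates of `V`, the roots of the
polynomial `g₁` for `E₀` and `s`): `p ∣ Nat.card I`, `τ` in `Gal(L/K)` of order `p` (so `τ s = s`,
`p` is odd); if `τ` was trivial on `V`, then...; to be sure that `τ` is not trivial on `V` choose
`L` generated by `V` and roots of polynomials of degree less than `p` (`hone`, `hE_one` there).
(2) On `V`, `N = τ - 1` satisfies `N ^ p = τ ^ p - 1 = 0` (`p V = 0`), so `N` is nilpotent and `V` has `p²`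
elements, so `N² = 0`, `N ≠ 0`, `N V` and `ker N` have order `p`, `N V = ker N = ⟨Q⟩`.
`f` commutes with `τ`; so `f Q = a Q`, `N (f P - a P) = f (N P) - a N P = 0`, so `(f - a)² = 0` on `V`.
(3) If `χ(g) = -1`, then `g f g⁻¹ = -f`, so `(-f - a)² = g (f - a)² g⁻¹ = 0`, so
`4 a f = (f + a)² - (f - a)² = 0`, but `4 a` is prime to `p` and `f Q ≠ 0`. -/
def L6 : Prop := ∀ (K : Type) [Field K] [NumberField K] (A B A₀ B₀ : K),
    4 * A ^ 3 + 27 * B ^ 2 ≠ 0 → 4 * A₀ ^ 3 + 27 * B₀ ^ 2 ≠ 0 → ∀ p : ℕ, p.Prime → 200 ≤ p →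
    ∀ F : EP A B → EP A₀ B₀, Cong A B A₀ B₀ p F → ∀ v : HeightOneSpectrum (𝓞 K),
    (adv K v).v 2 = 0 → (adv K v).v 3 = 0 → 200 * (adv K v).v (p : K) < p →
    (adv K v).v (jv A₀ B₀) = -1 → jv A B = jv A₀ B₀ → jv A₀ B₀ ≠ 0 → jv A₀ B₀ ≠ 1728 →
    ∃ t : K, t ≠ 0 ∧ A = t ^ 4 * A₀ ∧ B = t ^ 6 * B₀

end Local

end Pool.Agent.W2helper23.GP
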